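import Mathlib
import Pool.Graph.R_pool_sql_team_39128cda.H.MP_2e0873.B

set_option autoImplicit false
open Set Function Topology Filter TopologicalSpace OnePoint

/-! Metrizability of the compacta of `C_p(X)`, the Corson property, and separable factors. -/

namespace Pool.Agent.KS6_77.EbMet

open Pool.Agent.H.MP_2e0873

section met
variable {T : Type} {E : T → T → Prop}
variable (h1 : ∀ S : Set T, ¬ S.Countable → ∃ S' ⊆ S, ¬ S'.Countable ∧
  S'.Pairwise fun a b => ¬ E a b)
include h1

/-- all compact subsets of `C_p(X E)` are metrizable -/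
lemma met {C : Set (X E → ℝ)} (c1 : ∀ f ∈ C, Continuous f) (c2 : IsCompact C) :
    MetrizableSpace C := by
  classical
  obtain ⟨σ, hσ⟩ := ((countable_ofPred_finite_subset (act h1 c1 c2)).preimage_of_injOn
    (f := fun s : Finset T => (s : Set T)) Finset.coe_injective.injOn).exists_eq_range
      ⟨∅, by simp⟩
  have := isCompact_iff_compactSpace.1 c2
  refine IsEmbedding.metrizableSpace (f := fun (f : C) (n : ℕ) => f.1 (fin (σ n)))
    (Continuous.isClosedEmbedding (continuous_pi fun n =>
        (continuous_apply _).comp continuous_subtype_val) fun f g h => ?_).isEmbedding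
  replace h := congrFun h
  have k : ∀ f ∈ C, ∀ s : Finset T, f (fin s) = f (fin (s.filter fun a => ∃ f ∈ C,
      ∃ s : Finset T, f (fin (insert a s)) ≠ f (fin s))) := fun f hf s => by
    have : ∀ u v : Finset T, (∀ a ∈ u, ¬ ∃ f ∈ C, ∃ s : Finset T,
        f (fin (insert a s)) ≠ f (fin s)) → f (fin (u ∪ v)) = f (fin v) := fun u v hu => by
      induction u using Finset.induction_on with
      | empty => simp
      | insert a u _ ih =>
        rw [Finset.insert_union, ← ih fun b hb => hu b (Finset.mem_insert_of_mem hb)]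
        exact not_not.1 fun e => hu a (Finset.mem_insert_self _ _) ⟨f, hf, _, e⟩
    rw [← this (s.filter _) (s.filter _) fun a ha => (Finset.mem_filter.1 ha).2, Finset.union_comm,
      Finset.filter_union_filter_not_eq]
  refine Subtype.ext (dns.equalizer (c1 _ f.2) (c1 _ g.2) (funext fun s => ?_))
  obtain ⟨n, hn⟩ := (Set.ext_iff.1 hσ (s.filter fun a => ∃ f ∈ C, ∃ s : Finset T,
    f (fin (insert a s)) ≠ f (fin s))).1 ⟨Finset.finite_toSet _, fun a ha =>
      (Finset.mem_filter.1 ha).2⟩
  have e : f.1 (fin (σ n)) = g.1 (fin (σ n)) := h n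
  exact (k _ f.2 s).trans ((hn ▸ e).trans (k _ g.2 s).symm)

end met

/-- sets of pairwise comparable nodes of the tree `N` are countable -/
lemma chain_countable {S : Set N} (hS : S.Pairwise R) : S.Countable := by
  classical
  have hinj : InjOn (fun t : N => t.1.1) S := fun t ht u hu e => by
    by_contra hne
    rcases hS ht hu hne with h | h
    · exact h.1.ne e
    · exact h.1.ne e.symm
  have hagree : ∀ t ∈ S, ∀ u ∈ S, ∀ b : Ω, b < t.1.1 → b < u.1.1 → t.1.2 b = u.1.2 b := by
    intro t ht u hu b h1 h2
    by_cases hne : t = u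
    · rw [hne]
    rcases hS ht hu hne with h | h
    · exact h.2 h1
    · exact (h.2 h2).symm
  let O : Set Ω := {b | ∃ t ∈ S, b < t.1.1}
  let φ : Ω → ℕ := fun b => if h : ∃ t ∈ S, b < t.1.1 then h.choose.1.2 b else 0
  have hφ : ∀ t ∈ S, ∀ b : Ω, b < t.1.1 → φ b = t.1.2 b := fun t ht b hb => by
    have h : ∃ t ∈ S, b < t.1.1 := ⟨t, ht, hb⟩
    simp only [φ, dif_pos h]
    exact hagree _ h.choose_spec.1 t ht b h.choose_spec.2 hb
  have hO : O.Countable := by
    refine countable_of_injective_of_countable_image (f := φ) ?_ (to_countable _)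
    rintro b ⟨t, ht, hb⟩ b' ⟨u, hu, hb'⟩ e
    rcases le_total t.1.1 u.1.1 with h | h
    · have h3 := hb.trans_le h
      rw [hφ u hu b h3, hφ u hu b' hb'] at e
      exact u.2.1 h3 hb' e
    · have h3 := hb'.trans_le h
      rw [hφ t ht b hb, hφ t ht b' h3] at e
      exact t.2.1 hb h3 e
  refine countable_of_injective_of_countable_image hinj ?_
  have hsub : ((fun t : N => t.1.1) '' S \ O).Subsingleton := by
    rintro _ ⟨⟨t, ht, rfl⟩, h1⟩ _ ⟨⟨u, hu, rfl⟩, h2⟩
    by_contra hne
    rcases lt_or_gt_of_ne hne with h | h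
    · exact h1 ⟨u, hu, h⟩
    · exact h2 ⟨t, ht, h⟩
  exact (hsub.countable.union hO).mono fun x hx => (em (x ∈ O)).elim Or.inr fun h => Or.inl ⟨hx, h⟩

/-- separable factors preserve metrizability of the compact sets of continuous functions -/
lemma sep_met {X K : Type} [TopologicalSpace X] [TopologicalSpace K] [SeparableSpace K]
    (h : ∀ A : Set (X → ℝ), (∀ f ∈ A, Continuous f) → IsCompact A → MetrizableSpace A)
    (B : Set (X × K → ℝ)) (hB : ∀ f ∈ B, Continuous f) (hBc : IsCompact B) :
    MetrizableSpace B := by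
  have := isCompact_iff_compactSpace.1 hBc
  rcases isEmpty_or_nonempty K with hK | hK
  · have : Subsingleton B := ⟨fun f g => Subtype.ext (funext fun p => (hK.false p.2).elim)⟩
    infer_instance
  let k : ℕ → K := denseSeq K
  let ρ : ℕ → (X × K → ℝ) → X → ℝ := fun n f x => f (x, k n)
  have hρ : ∀ n, Continuous (ρ n) := fun n => continuous_pi fun x => continuous_apply _
  let A : ℕ → Set (X → ℝ) := fun n => ρ n '' B
  have hA : ∀ n, MetrizableSpace (A n) := fun n => h _ (by
    rintro _ ⟨f, hf, rfl⟩
    exact (hB f hf).comp (Continuous.prodMk_left (k n))) (hBc.image (hρ n))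
  have hA2 : ∀ n, SecondCountableTopology (A n) := fun n => by
    have := hA n
    have : CompactSpace (A n) := isCompact_iff_compactSpace.1 (hBc.image (hρ n))
    let := metrizableSpaceMetric (A n)
    infer_instance
  have hA3 : ∀ n, T3Space (A n) := fun n => by
    have := hA n
    infer_instance
  have hP : MetrizableSpace (∀ n, A n) := by
    have : SecondCountableTopology (∀ n, A n) := inferInstance
    have : T3Space (∀ n, A n) := inferInstance
    exact metrizableSpace_of_t3_secondCountable _
  refine IsEmbedding.metrizableSpace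
    (f := fun (f : B) (n : ℕ) => (⟨ρ n f.1, f.1, f.2, rfl⟩ : A n))
    (Continuous.isClosedEmbedding (continuous_pi fun n =>
        ((hρ n).comp continuous_subtype_val).subtype_mk _) fun f g hfg => ?_).isEmbedding
  refine Subtype.ext (funext fun ⟨x, y⟩ => ?_)
  have h1 : ∀ n, f.1 (x, k n) = g.1 (x, k n) := fun n =>
    congrFun (congrArg Subtype.val (congrFun hfg n)) x
  have h2 := (denseRange_denseSeq K).equalizer
    ((hB _ f.2).comp (Continuous.prodMk_right x)) ((hB _ g.2).comp (Continuous.prodMk_right x))
    (funext h1)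
  exact congrFun h2 y

end Pool.Agent.KS6_77.EbMet
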